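import Pool.Agent.Lib.MP_b07157_ag.GN.D3
import Pool.Agent.Lib.MP_b07157_ag.NewtVG
import Pool.Agent.Lib.MP_b07157_ag.NewtClass
import Pool.Agent.Lib.MP_b07157_ag.GN.LocAll
import Pool.Agent.Lib.MP_b07157_ag.GN.Main

section

/-!
# Scaling of the variables and of the polynomial
-/

noncomputable section

namespace MPb07157.SX

open MvPolynomial

variable {n : ℕ}

/-- The scaling `x_i ↦ t_i x_i` of polynomials. -/
def sc {R : Type} [CommRing R] (t : Fin n → R) : MvPolynomial (Fin n) R →ₐ[R] MvPolynomial (Fin n) R :=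
  aeval fun i => (C (t i) * X i : MvPolynomial (Fin n) R)

theorem sc_C {R : Type} [CommRing R] (t : Fin n → R) (a : R) : sc t (C a) = C a := by
  simp [sc, algebraMap_eq]

theorem sc_X {R : Type} [CommRing R] (t : Fin n → R) (i : Fin n) : sc t (X i) = C (t i) * X i := by
  simp [sc]

theorem pderiv_sc {R : Type} [CommRing R] (t : Fin n → R) (i : Fin n)
    (g : MvPolynomial (Fin n) R) : pderiv i (sc t g) = C (t i) * sc t (pderiv i g) := by
  induction g using MvPolynomial.induction_on with
  | C a => simp [sc_C]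
  | add p q hp hq => rw [map_add, map_add, hp, hq, map_add, map_add, mul_add]
  | mul_X p j hp =>
    rw [map_mul, Derivation.leibniz, Derivation.leibniz, hp, sc_X, Derivation.leibniz]
    simp only [smul_eq_mul, map_add, map_mul, pderiv_C, mul_zero, add_zero, sc_X, pderiv_X]
    by_cases hij : i = j
    · subst hij
      simp
      ring
    · simp [Ne.symm hij]
      ring

theorem sc_comp {R : Type} [CommRing R] (t u : Fin n → R) (h : ∀ i, t i * u i = 1)
    (g : MvPolynomial (Fin n) R) : sc t (sc u g) = g := by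
  induction g using MvPolynomial.induction_on with
  | C a => rw [sc_C, sc_C]
  | add p q hp hq => rw [map_add, map_add, hp, hq]
  | mul_X p j hp =>
    rw [map_mul, map_mul, hp, sc_X, map_mul, sc_C, sc_X, ← mul_assoc (C (u j)), ← C_mul,
      mul_comm (u j), h j, C_1, one_mul]

theorem sc_monomial {R : Type} [CommRing R] (t : Fin n → R) (v : Fin n →₀ ℕ) (a : R) :
    sc t (monomial v a) = monomial v (a * ∏ i, t i ^ v i) := by
  rw [sc, aeval_monomial, algebraMap_eq]
  simp only [mul_pow, ← C_pow]
  rw [Finsupp.prod_fintype _ _ (fun i => by simp), Finset.prod_mul_distrib, ← map_prod,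
    monomial_eq, C_mul, mul_assoc, Finsupp.prod_fintype _ _ (fun i => by simp)]

theorem coeff_sc {R : Type} [CommRing R] (t : Fin n → R) (v : Fin n →₀ ℕ)
    (g : MvPolynomial (Fin n) R) : coeff v (sc t g) = coeff v g * ∏ i, t i ^ v i := by
  induction g using MvPolynomial.induction_on' with
  | monomial u a =>
    rw [sc_monomial, coeff_monomial, coeff_monomial]
    split_ifs with h
    · rw [h]
    · rw [zero_mul]
  | add p q hp hq => rw [map_add, coeff_add, hp, hq, coeff_add, add_mul]

theorem constantCoeff_sc {R : Type} [CommRing R] (t : Fin n → R) (g : MvPolynomial (Fin n) R) :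
    constantCoeff (sc t g) = constantCoeff g := by
  rw [constantCoeff_eq, coeff_sc]
  simp

theorem liftS_sc (t : Fin n → ℂ) (f : MvPolynomial (Fin n) ℂ) :
    sc (fun i => Polynomial.C (t i)) (liftS f) = liftS (sc t f) := by
  induction f using MvPolynomial.induction_on with
  | C a => simp [liftS, sc_C]
  | add p q hp hq =>
    rw [liftS, map_add, map_add]
    change sc _ (liftS p) + sc _ (liftS q) = _
    rw [hp, hq, map_add]
    simp [liftS]
  | mul_X g j hg =>
    rw [liftS, map_mul, map_mul]
    change sc _ (liftS g) * _ = _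
    rw [hg, map_mul]
    simp [liftS, sc_X]

/-- Scaling of elements of `D_n[s] f^{s+1}`. -/
theorem InDn_sc (t : Fin n → ℂ) (ht : ∀ i, t i ≠ 0) (lam : ℂ) (hl : lam ≠ 0)
    {f : MvPolynomial (Fin n) ℂ} {k : ℕ}
    {g : MvPolynomial (Fin n) (Polynomial ℂ)} (H : InDn f k g) :
    InDn (C lam * sc t f) k (sc (fun i => Polynomial.C (t i)) g) := by
  have hlift : ∀ h : MvPolynomial (Fin n) ℂ, liftS (C lam * h) =
      C (Polynomial.C lam) * liftS h := fun h => by simp [liftS]
  have hinv : (C (Polynomial.C lam⁻¹) : MvPolynomial (Fin n) (Polynomial ℂ)) *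
      C (Polynomial.C lam) = 1 := by
    rw [← C_mul, ← Polynomial.C_mul, inv_mul_cancel₀ hl]
    simp
  induction H with
  | base => simpa using InDn.base
  | add _ _ ih1 ih2 =>
    rw [map_add]
    exact InDn.add ih1 ih2
  | mul c _ ih =>
    rw [map_mul]
    exact InDn.mul _ ih
  | @deriv k g i _ ih =>
    have h1 := InDn.mul (C (Polynomial.C (t i)⁻¹) * C (Polynomial.C lam⁻¹)) (InDn.deriv i ih)
    have hti : (C (Polynomial.C (t i)⁻¹) : MvPolynomial (Fin n) (Polynomial ℂ)) *
        C (Polynomial.C (t i)) = 1 := by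
      rw [← C_mul, ← Polynomial.C_mul, inv_mul_cancel₀ (ht i)]
      simp
    convert h1 using 1
    have hd : liftS (pderiv i (C lam * sc t f)) =
        C (Polynomial.C lam) * (C (Polynomial.C (t i)) * liftS (sc t (pderiv i f))) := by
      rw [Derivation.leibniz, pderiv_C, smul_zero, add_zero, smul_eq_mul, pderiv_sc, hlift]
      congr 1
      simp [liftS]
    rw [map_add, map_mul, map_mul, map_mul, liftS_sc, liftS_sc, pderiv_sc, hlift, hd, sc_C]
    linear_combination (exp := 1) (-(liftS (sc t f) *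
      sc (fun i => Polynomial.C (t i)) (pderiv i g) +
      C (Polynomial.X + 1 - (k : Polynomial ℂ)) * liftS (sc t (pderiv i f)) *
        sc (fun i => Polynomial.C (t i)) g)) * hti -
      (liftS (sc t f) * sc (fun i => Polynomial.C (t i)) (pderiv i g) +
      C (Polynomial.X + 1 - (k : Polynomial ℂ)) * liftS (sc t (pderiv i f)) *
        sc (fun i => Polynomial.C (t i)) g) * C (Polynomial.C (t i)⁻¹) *
        C (Polynomial.C (t i)) * hinv
  | @raise k g _ ih =>
    have h1 := InDn.mul (C (Polynomial.C lam⁻¹)) (InDn.raise ih)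
    convert h1 using 1
    rw [map_mul, liftS_sc, hlift]
    linear_combination (-(liftS (sc t f) * sc (fun i => Polynomial.C (t i)) g)) * hinv
  | @lower k g _ ih =>
    refine InDn.lower ?_
    rw [map_mul, liftS_sc] at ih
    have h1 := InDn.mul (C (Polynomial.C lam)) ih
    convert h1 using 1
    rw [hlift]
    ring

theorem root_sc (t : Fin n → ℂ) (ht : ∀ i, t i ≠ 0) (lam : ℂ) (hl : lam ≠ 0)
    {f : MvPolynomial (Fin n) ℂ} {s₀ : ℚ} (h : IsBernsteinSatoRoot f s₀) :
    IsBernsteinSatoRoot (C lam * sc t f) s₀ := by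
  intro b hb
  apply h b
  have h1 := InDn_sc (fun i => (t i)⁻¹) (fun i => inv_ne_zero (ht i)) lam⁻¹ (inv_ne_zero hl) hb
  rw [map_mul, sc_C, sc_comp _ _ (fun i => inv_mul_cancel₀ (ht i)), ← mul_assoc, ← C_mul,
    inv_mul_cancel₀ hl, C_1, one_mul, sc_C] at h1
  exact h1

theorem strong_sc (t : Fin n → ℂ) (ht : ∀ i, t i ≠ 0) (lam : ℂ) (hl : lam ≠ 0)
    {f : MvPolynomial (Fin n) ℂ} {s₀ : ℂ} (h : GN.StrongRoot f s₀) :
    GN.StrongRoot (C lam * sc t f) s₀ := by
  intro g hg
  have h1 := InDn_sc (fun i => (t i)⁻¹) (fun i => inv_ne_zero (ht i)) lam⁻¹ (inv_ne_zero hl) hg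
  rw [map_mul, sc_C, sc_comp _ _ (fun i => inv_mul_cancel₀ (ht i)), ← mul_assoc, ← C_mul,
    inv_mul_cancel₀ hl, C_1, one_mul] at h1
  have h2 := h _ h1
  rwa [constantCoeff_sc] at h2

end MPb07157.SX
end
end

section

/-!
# Affinely independent exponents
-/

noncomputable section

namespace MPb07157.SX

open MvPolynomial Finset

variable {n : ℕ} {f f₁ : MvPolynomial (Fin n) ℂ}

/-- The exponents of `f` are affinely independent over `ℚ`. -/
def AI (f : MvPolynomial (Fin n) ℂ) : Prop :=
  ∀ g : Sf f → ℚ, ∑ v, g v = 0 → (∀ j, ∑ v, g v * ((v.1 j : ℕ) : ℚ) = 0) → g = 0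

theorem AI.of_affineIndependent
    (h : AffineIndependent ℚ fun v : Sf f => fun j : Fin n => ((v.1 j : ℕ) : ℚ)) : AI f := by
  intro g h1 h2
  rw [affineIndependent_iff] at h
  funext v
  refine h Finset.univ g h1 ?_ v (Finset.mem_univ _)
  funext j
  rw [Finset.sum_apply]
  simpa [smul_eq_mul] using h2 j

theorem AI.complex (h : AI f) (g : Sf f → ℂ) (h1 : ∑ v, g v = 0)
    (h2 : ∀ j, ∑ v, g v * ((v.1 j : ℕ) : ℂ) = 0) : g = 0 := by
  funext v
  rw [Pi.zero_apply]
  rw [← Module.forall_dual_apply_eq_zero_iff ℚ]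
  intro φ
  have h3 : (fun v => φ (g v)) = 0 := by
    apply h
    · rw [← map_sum, h1, map_zero]
    · intro j
      have h4 : ∀ v : Sf f, φ (g v) * ((v.1 j : ℕ) : ℚ) = φ (g v * ((v.1 j : ℕ) : ℂ)) := by
        intro v
        have h5 : g v * ((v.1 j : ℕ) : ℂ) = ((v.1 j : ℕ) : ℚ) • g v := by
          rw [Algebra.smul_def, mul_comm]
          simp
        rw [h5, map_smul, smul_eq_mul, mul_comm]
      rw [Finset.sum_congr rfl fun v _ => h4 v, ← map_sum, h2 j, map_zero]
  exact congrFun h3 v

theorem AI.nondeg (h : AI f) {I : Finset (Fin n →₀ ℕ)} (hI : I ⊆ f.support) (hne : I.Nonempty) :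
    NondegAt f I := by
  classical
  intro u hu hz
  by_contra hcon
  push Not at hcon
  set c : Sf f → ℂ := fun v => if v.1 ∈ I then coeff v.1 f * ∏ j, u j ^ v.1 j else 0 with hc
  have hev : ∀ v : Fin n →₀ ℕ, (v.prod fun j k => u j ^ k) = ∏ j, u j ^ v j :=
    fun v => Finsupp.prod_fintype _ _ fun i => by simp
  have hsum : ∀ F : (Fin n →₀ ℕ) → ℂ,
      ∑ v : Sf f, (if v.1 ∈ I then coeff v.1 f * ∏ j, u j ^ v.1 j else 0) * F v.1 =
        ∑ v ∈ I, (coeff v f * ∏ j, u j ^ v j) * F v := by
    intro F
    rw [Finset.sum_coe_sort f.support fun v =>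
      (if v ∈ I then coeff v f * ∏ j, u j ^ v j else 0) * F v]
    rw [← Finset.sum_subset hI]
    · exact Finset.sum_congr rfl fun v hv => by rw [if_pos hv]
    · intro v _ hv
      rw [if_neg hv, zero_mul]
  have h0 : c = 0 := by
    apply h.complex
    · have h1 := hsum fun _ => 1
      simp only [mul_one] at h1
      rw [hc]
      beta_reduce
      rw [h1, ← hz, inForm, map_sum]
      exact Finset.sum_congr rfl fun v _ => by rw [eval_monomial, hev]
    · intro j
      rw [hc]
      beta_reduce
      rw [hsum fun v => ((v j : ℕ) : ℂ)]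
      have h1 := congrArg (fun z => u j * z) (hcon j)
      simp only [mul_zero] at h1
      rw [← h1, inForm, map_sum, map_sum, Finset.mul_sum]
      refine Finset.sum_congr rfl fun v _ => ?_
      rw [pderiv_monomial, eval_monomial, hev]
      rcases Nat.eq_zero_or_pos (v j) with hv | hv
      · rw [hv]
        simp
      · have h2 : ∏ i, u i ^ v i = u j * ∏ i, u i ^ (v - Finsupp.single j 1 : Fin n →₀ ℕ) i := by
          have h3 : (v - Finsupp.single j 1 : Fin n →₀ ℕ) + Finsupp.single j 1 = v := by
            ext i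
            rw [Finsupp.add_apply, Finsupp.tsub_apply]
            by_cases hij : j = i
            · subst hij
              rw [Finsupp.single_eq_same]
              omega
            · rw [Finsupp.single_eq_of_ne (Ne.symm hij)]
              simp
          conv_lhs => rw [← h3]
          simp only [Finsupp.add_apply, pow_add]
          rw [Finset.prod_mul_distrib, mul_comm]
          congr 1
          rw [Finset.prod_eq_single j]
          · rw [Finsupp.single_eq_same, pow_one]
          · intro i _ hi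
            rw [Finsupp.single_eq_of_ne hi, pow_zero]
          · intro hj
            exact absurd (Finset.mem_univ _) hj
        rw [h2]
        ring
  obtain ⟨v, hv⟩ := hne
  have h1 := congrFun h0 ⟨v, hI hv⟩
  rw [hc] at h1
  simp only [Pi.zero_apply] at h1
  rw [if_pos hv] at h1
  exact mul_ne_zero (mem_support_iff.1 (hI hv))
    (Finset.prod_ne_zero_iff.2 fun j _ => pow_ne_zero _ (hu j)) h1

/-- For affinely independent exponents the torus acts transitively on the coefficients. -/
theorem AI.exists_sc (h : AI f) (hs : f₁.support = f.support) :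
    ∃ (t : Fin n → ℂ) (lam : ℂ), (∀ i, t i ≠ 0) ∧ lam ≠ 0 ∧ C lam * sc t f₁ = f := by
  classical
  have hli : LinearIndependent ℂ (fun v : Sf f => (fun o : Option (Fin n) =>
      (o.elim 1 fun j => ((v.1 j : ℕ) : ℂ) : ℂ))) := by
    rw [Fintype.linearIndependent_iff]
    intro g hg
    have h1 := h.complex g (by
      have h2 := congrFun hg none
      simpa [Finset.sum_apply] using h2) (fun j => by
      have h2 := congrFun hg (some j)
      simpa [Finset.sum_apply] using h2)
    exact fun v => congrFun h1 v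
  set z : Sf f → ℂ := fun v => Complex.log (coeff v.1 f / coeff v.1 f₁) with hz
  obtain ⟨φ, hφ⟩ := LinearMap.exists_extend ((Module.Basis.span hli).constr ℂ z)
  have hφ' : ∀ v : Sf f, φ (fun o : Option (Fin n) =>
      (o.elim 1 fun j => ((v.1 j : ℕ) : ℂ) : ℂ)) = z v := by
    intro v
    have h1 := LinearMap.congr_fun hφ ((Module.Basis.span hli) v)
    rw [Module.Basis.constr_basis, LinearMap.comp_apply] at h1
    rw [← h1]
    congr 1
    exact (congrArg Subtype.val (Module.Basis.span_apply hli v)).symm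
  set q : Option (Fin n) → ℂ := fun i => φ fun j => if i = j then 1 else 0 with hq
  refine ⟨fun j => Complex.exp (q (some j)), Complex.exp (q none),
    fun i => Complex.exp_ne_zero _, Complex.exp_ne_zero _, ?_⟩
  ext v
  rw [coeff_C_mul, coeff_sc]
  by_cases hv : v ∈ f.support
  · have h1 := hφ' ⟨v, hv⟩
    rw [LinearMap.pi_apply_eq_sum_univ, Fintype.sum_option] at h1
    simp only [Option.elim, smul_eq_mul, one_mul] at h1
    have h2 : Complex.exp (z ⟨v, hv⟩) = coeff v f / coeff v f₁ := by
      rw [hz]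
      exact Complex.exp_log (div_ne_zero (mem_support_iff.1 hv)
        (mem_support_iff.1 (by rw [hs]; exact hv)))
    rw [← h1, Complex.exp_add, Complex.exp_sum] at h2
    have h3 : coeff v f₁ ≠ 0 := mem_support_iff.1 (by rw [hs]; exact hv)
    rw [eq_div_iff h3] at h2
    rw [← h2]
    have h4 : ∀ j, Complex.exp (q (some j)) ^ v j = Complex.exp (((v j : ℕ) : ℂ) * q (some j)) :=
      fun j => (Complex.exp_nat_mul _ _).symm
    simp only [h4]
    rw [hq]
    ring
  · have h3 : coeff v f₁ = 0 := notMem_support_iff.1 (by rw [hs]; exact hv)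
    rw [notMem_support_iff.1 hv, h3]
    ring

end MPb07157.SX
end
end

section

/-!
# The strong monodromy conjecture for affinely independent exponents
-/

noncomputable section

namespace MPb07157.SX

open MvPolynomial Finset

variable {n : ℕ} {f : MvPolynomial (Fin n) ℂ}

/-- **The strong monodromy conjecture (global motivic version) for affinely independent
exponents.** -/
theorem smc_affine (hf : f ≠ 0) (h0 : (0 : Fin n →₀ ℕ) ∉ f.support) (h : AI f) (s₀ : ℚ)
    (hp : IsPole (Zmot f) s₀) : IsBernsteinSatoRoot f s₀ := by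
  by_cases hs : s₀ = -1
  · subst hs
    exact (roots_of_form (f := f) (s₀ := -1) fun b hb => neg_one_root hf h0 b hb).1
  obtain ⟨f₁, hf₁, halg⟩ := GN.exists_algInd f.support
  have hf₁0 : f₁ ≠ 0 := by
    rw [← MvPolynomial.support_nonempty, hf₁]
    exact MvPolynomial.support_nonempty.2 hf
  have halg' : AlgebraicIndependent ℚ (cf f₁) := by
    have h1 : ∀ S : Finset (Fin n →₀ ℕ), f₁.support = S →
        AlgebraicIndependent ℚ (fun v : {v : Fin n →₀ ℕ // v ∈ S} => coeff v.1 f₁) →
        AlgebraicIndependent ℚ (cf f₁) := by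
      rintro S rfl h2
      exact h2
    exact h1 _ hf₁ halg
  obtain ⟨t, lam, ht, hl, hsc⟩ := h.exists_sc hf₁
  obtain ⟨D, k, hk, hg⟩ := GN.exists_good_of_pole hf (fun I hI hne => h.nondeg hI hne) hs hp
  obtain ⟨ρ, γ, hg'⟩ := GN.goodSet_congr hf₁.symm hg
  rw [← hsc]
  exact root_sc t ht lam hl (hg'.root hf₁0 halg' (GN.isB_congr hf₁.symm hk))

/-- **The strong monodromy conjecture (local motivic version) for affinely independent
exponents.** -/
theorem smc_affine_local (hf : f ≠ 0) (h0 : (0 : Fin n →₀ ℕ) ∉ f.support) (h : AI f) (s₀ : ℚ)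
    (hp : IsPole (Zmot0 f) s₀) : IsLocalBernsteinSatoRoot f s₀ := by
  by_cases hs : s₀ = -1
  · subst hs
    exact (roots_of_form (f := f) (s₀ := -1) fun b hb => neg_one_root hf h0 b hb).2
  obtain ⟨f₁, hf₁, halg⟩ := GN.exists_algInd f.support
  have hf₁0 : f₁ ≠ 0 := by
    rw [← MvPolynomial.support_nonempty, hf₁]
    exact MvPolynomial.support_nonempty.2 hf
  have halg' : AlgebraicIndependent ℚ (cf f₁) := by
    have h1 : ∀ S : Finset (Fin n →₀ ℕ), f₁.support = S →
        AlgebraicIndependent ℚ (fun v : {v : Fin n →₀ ℕ // v ∈ S} => coeff v.1 f₁) →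
        AlgebraicIndependent ℚ (cf f₁) := by
      rintro S rfl h2
      exact h2
    exact h1 _ hf₁ halg
  obtain ⟨t, lam, ht, hl, hsc⟩ := h.exists_sc hf₁
  obtain ⟨w, ω, N, Nω, ρ, γ, hc⟩ :=
    exists_cell_of_pole hf (fun I hI hne => h.nondeg hI hne) hs hp
  rw [← hf₁] at hc
  have h1 := strong_sc t ht lam hl (hc.strong hf₁0 halg')
  rw [hsc] at h1
  exact GN.StrongRoot.local h1

end MPb07157.SX
end
end
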